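import Pool.Agent.Helper79.LG.Goals

/-!
# Project LG, packets MN, DR, SM: transcendence degrees
-/

universe u v

open scoped BigOperators

open Pool.Agent.Helper64.IG

namespace Pool.Agent.Helper79.LG

theorem mn : G_MN.{u, v} := by
  intro k K _ _ _ S T m hST hT
  have hle : IntermediateField.adjoin k S ≤ IntermediateField.adjoin k T :=
    IntermediateField.adjoin_le_iff.2 hST
  exact (trdeg_le_of_injective (IntermediateField.inclusion hle)
    (IntermediateField.inclusion_injective hle)).trans hT

theorem sm : G_SM.{u, v} := by
  intro F K _ _ _ ι x s hs hx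
  have h1 : AlgebraicIndependent F (fun i => (MvPolynomial.C (s i) * MvPolynomial.X i :
      MvPolynomial ι F)) := by
    rw [algebraicIndependent_iff_injective_aeval]
    have h2 : Function.LeftInverse
        (MvPolynomial.aeval (fun i => (MvPolynomial.C (s i)⁻¹ * MvPolynomial.X i :
          MvPolynomial ι F)))
        (MvPolynomial.aeval (fun i => (MvPolynomial.C (s i) * MvPolynomial.X i :
          MvPolynomial ι F))) := by
      intro p
      rw [← AlgHom.comp_apply]
      have h3 : (MvPolynomial.aeval (fun i => (MvPolynomial.C (s i)⁻¹ * MvPolynomial.X i :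
          MvPolynomial ι F))).comp
        (MvPolynomial.aeval (fun i => (MvPolynomial.C (s i) * MvPolynomial.X i :
          MvPolynomial ι F))) = AlgHom.id F _ := by
        apply MvPolynomial.algHom_ext
        intro i
        simp only [AlgHom.comp_apply, MvPolynomial.aeval_X, map_mul, MvPolynomial.aeval_C,
          AlgHom.id_apply, MvPolynomial.algebraMap_eq]
        rw [← mul_assoc, ← MvPolynomial.C_mul, mul_inv_cancel₀ (hs i), MvPolynomial.C_1, one_mul]
      rw [h3, AlgHom.id_apply]
    exact h2.injective
  have h2 : (fun i => algebraMap F K (s i) * x i) = MvPolynomial.aeval x ∘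
      (fun i => (MvPolynomial.C (s i) * MvPolynomial.X i : MvPolynomial ι F)) := by
    funext i
    simp
  rw [h2]
  exact h1.map' hx

/-- the field generated by `range w` is algebraic over the algebra generated by it -/
theorem alg_gen {F : Type v} {K : Type u} [Field F] [Field K] [Algebra F K] {ι : Type}
    (w : ι → K) :
    Algebra.IsAlgebraic (Algebra.adjoin F {x : IntermediateField.adjoin F (Set.range w) |
      (x : K) ∈ Set.range w}) (IntermediateField.adjoin F (Set.range w)) := by
  set L := IntermediateField.adjoin F (Set.range w) with hL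
  set s : Set L := {x | (x : K) ∈ Set.range w} with hs
  have h1 : (Algebra.adjoin F s).map L.val = Algebra.adjoin F (Set.range w) := by
    rw [AlgHom.map_adjoin]
    congr 1
    ext y
    constructor
    · rintro ⟨x, hx, rfl⟩
      exact hx
    · rintro ⟨i, rfl⟩
      exact ⟨⟨w i, IntermediateField.subset_adjoin F _ ⟨i, rfl⟩⟩, ⟨i, rfl⟩, rfl⟩
  constructor
  intro x
  obtain ⟨a, ha, b, hb, hab⟩ := IntermediateField.mem_adjoin_iff_div.1 x.2
  rw [← h1] at ha hb
  obtain ⟨a', ha', rfl⟩ := ha
  obtain ⟨b', hb', rfl⟩ := hb
  by_cases h0 : b' = 0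
  · have hx : x = 0 := by
      apply Subtype.ext
      rw [hab, h0]
      simp
    rw [hx]
    exact isAlgebraic_zero
  · have hx : b' * x = a' := by
      apply Subtype.ext
      have h2 : (b' : K) ≠ 0 := by
        intro h
        exact h0 (Subtype.ext h)
      show (b' : K) * (x : K) = a'
      rw [hab]
      show (b' : K) * ((a' : K) / b') = a'
      field_simp
    refine ⟨Polynomial.C (⟨b', hb'⟩ : Algebra.adjoin F s) * Polynomial.X -
      Polynomial.C (⟨a', ha'⟩ : Algebra.adjoin F s), ?_, ?_⟩
    · intro h
      have h3 := congrArg (fun p => Polynomial.coeff p 1) h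
      simp only [Polynomial.coeff_sub, Polynomial.coeff_C_mul, Polynomial.coeff_X_one, mul_one,
        Polynomial.coeff_C_succ, sub_zero, Polynomial.coeff_zero] at h3
      exact h0 (congrArg Subtype.val h3)
    · simp only [map_sub, map_mul, Polynomial.aeval_C, Polynomial.aeval_X]
      show b' * x - a' = 0
      rw [hx, sub_self]

theorem dr : G_DR.{u, v} := by
  classical
  intro k K _ _ _ S S₁ ι _ w r m hS hno h1
  set F := IntermediateField.adjoin k S₁ with hF
  set L := IntermediateField.adjoin F (Set.range w) with hL
  have halg := alg_gen (F := F) w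
  obtain ⟨t, ht, htb⟩ := exists_isTranscendenceBasis_subset (R := F) (A := L)
    {x : L | (x : K) ∈ Set.range w}
  have htr : Algebra.trdeg F L ≤ (r : Cardinal.{u}) := by
    rw [← htb.cardinalMk_eq_trdeg]
    by_contra hlt
    push Not at hlt
    have h2 : ((r + 1 : ℕ) : Cardinal.{u}) ≤ Cardinal.mk t := by
      rw [Nat.cast_succ, ← Cardinal.succ_natCast]
      exact Order.succ_le_of_lt hlt
    obtain ⟨g⟩ : Nonempty (Fin (r + 1) ↪ t) := by
      rw [← Cardinal.lift_mk_le']
      simpa using h2
    have hch : ∀ y : t, ∃ i, w i = ((y : L) : K) := fun y => ht y.2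
    choose c hc using hch
    refine hno (fun j => c (g j)) ?_ ?_
    · intro j j' hjj
      apply g.injective
      apply Subtype.ext
      apply Subtype.ext
      rw [← hc, ← hc]
      exact congrArg w hjj
    · have h3 : AlgebraicIndependent F (fun j => ((g j : L) : K)) := by
        have h4 : AlgebraicIndependent F (fun j => (g j : L)) := htb.1.comp g g.injective
        exact h4.map' (f := L.val) L.val.injective
      have h5 : (fun j => w (c (g j))) = fun j => ((g j : L) : K) := by
        funext j
        exact hc (g j)
      rw [h5]
      exact h3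
  have hadd : Algebra.trdeg k F + Algebra.trdeg F L = Algebra.trdeg k L :=
    trdeg_add_eq k F
  have hle : IntermediateField.adjoin k S ≤ L.restrictScalars k := by
    rw [IntermediateField.adjoin_le_iff]
    intro x hx
    have h2 := hS hx
    have h3 : IntermediateField.adjoin k (S₁ ∪ Set.range w) ≤ L.restrictScalars k := by
      rw [IntermediateField.adjoin_le_iff]
      rintro y (hy | hy)
      · have h4 : y ∈ F := IntermediateField.subset_adjoin k _ hy
        exact L.algebraMap_mem ⟨y, h4⟩
      · exact IntermediateField.subset_adjoin F _ hy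
    exact h3 h2
  have hle2 : Algebra.trdeg k (IntermediateField.adjoin k S) ≤ Algebra.trdeg k L :=
    trdeg_le_of_injective (A' := L.restrictScalars k) (IntermediateField.inclusion hle)
      (IntermediateField.inclusion_injective hle)
  show Algebra.trdeg k (IntermediateField.adjoin k S) ≤ ((m + r : ℕ) : Cardinal.{u})
  refine hle2.trans ?_
  rw [← hadd, Nat.cast_add]
  exact add_le_add h1 htr

end Pool.Agent.Helper79.LG
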