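import Pool.Agent.Helper79.LG.Goals

/-!
# Project LG, packet ROT: a matrix that absorbs rank one matrices is generic
-/

universe u v

open scoped BigOperators

open Pool.Agent.Helper64.IG

namespace Pool.Agent.Helper79.LG

/-- `b` is a specialization of `β` -/
def Spc (k : Type v) {K : Type u} [Field k] [Field K] [Algebra k K] {P J : Type}
    (β b : P → J → K) : Prop :=
  ∀ f : MvPolynomial (P × J) k, MvPolynomial.aeval (fun ij : P × J => β ij.1 ij.2) f = 0 →
    MvPolynomial.aeval (fun ij : P × J => b ij.1 ij.2) f = 0

theorem spc_step {k : Type v} {K : Type u} [Field k] [Field K] [Algebra k K] {P J : Type}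
    {β b : P → J → K}
    (h : ∀ f : MvPolynomial (P × J) k, MvPolynomial.aeval (fun ij : P × J => β ij.1 ij.2) f = 0 →
      MvPolynomial.aeval (fun ij : P × J => (MvPolynomial.C (β ij.1 ij.2) +
        MvPolynomial.X (Sum.inl ij.2) * MvPolynomial.X (Sum.inr ij.1) :
          MvPolynomial (J ⊕ P) K)) f = 0)
    (hb : Spc k β b) (y : J → K) (z : P → K) : Spc k β (fun i j => b i j + y j * z i) := by
  intro f hf
  -- the generic translation
  let Φ : MvPolynomial (P × J) k →ₐ[k] MvPolynomial (J ⊕ P) (MvPolynomial (P × J) k) :=
    MvPolynomial.aeval (fun ij : P × J => (MvPolynomial.C (MvPolynomial.X ij) +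
      MvPolynomial.X (Sum.inl ij.2) * MvPolynomial.X (Sum.inr ij.1)))
  have key : ∀ c : P → J → K, MvPolynomial.mapAlgHom
      (MvPolynomial.aeval (fun ij : P × J => c ij.1 ij.2) : MvPolynomial (P × J) k →ₐ[k] K)
      (Φ f) = MvPolynomial.aeval (fun ij : P × J => (MvPolynomial.C (c ij.1 ij.2) +
        MvPolynomial.X (Sum.inl ij.2) * MvPolynomial.X (Sum.inr ij.1) :
          MvPolynomial (J ⊕ P) K)) f := by
    intro c
    rw [← AlgHom.comp_apply]
    congr 1
    apply MvPolynomial.algHom_ext
    intro ij
    simp [Φ]
  have h1 : ∀ m, MvPolynomial.aeval (fun ij : P × J => b ij.1 ij.2)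
      (MvPolynomial.coeff m (Φ f)) = 0 := by
    intro m
    apply hb
    have h2 := key β
    rw [h f hf] at h2
    have h3 := congrArg (MvPolynomial.coeff m) h2
    rw [MvPolynomial.coeff_zero] at h3
    rw [← h3]
    simp [MvPolynomial.coeff_map]
  have h4 : MvPolynomial.mapAlgHom
      (MvPolynomial.aeval (fun ij : P × J => b ij.1 ij.2) : MvPolynomial (P × J) k →ₐ[k] K)
      (Φ f) = 0 := by
    ext m
    rw [MvPolynomial.coeff_zero, ← h1 m]
    simp [MvPolynomial.coeff_map]
  rw [key b] at h4
  have h5 := congrArg (MvPolynomial.aeval (R := K) (Sum.elim y z)) h4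
  rw [map_zero] at h5
  rw [← h5]
  have h6 : (MvPolynomial.aeval (fun ij : P × J => b ij.1 ij.2 + y ij.2 * z ij.1) :
      MvPolynomial (P × J) k →ₐ[k] K) =
      ((MvPolynomial.aeval (R := K) (Sum.elim y z)).restrictScalars k).comp
        (MvPolynomial.aeval (fun ij : P × J => (MvPolynomial.C (b ij.1 ij.2) +
        MvPolynomial.X (Sum.inl ij.2) * MvPolynomial.X (Sum.inr ij.1) :
          MvPolynomial (J ⊕ P) K))) := by
    apply MvPolynomial.algHom_ext
    intro ij
    simp
  rw [h6]
  rfl

theorem rot : G_ROT.{u, v} := by
  classical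
  intro k K _ _ _ _ P J _ _ β h
  have h1 : ∀ (b : P → J → K) (T : Finset J), Spc k β (fun i j => if j ∈ T then b i j else β i j) := by
    intro b T
    induction T using Finset.induction_on with
    | empty =>
      intro f hf
      simpa using hf
    | insert j0 T hj0 ih =>
      have h2 := spc_step h ih (fun j => if j = j0 then 1 else 0) (fun i => b i j0 - β i j0)
      have h3 : (fun (i : P) (j : J) => if j ∈ insert j0 T then b i j else β i j) =
          fun i j => (if j ∈ T then b i j else β i j) +
            (if j = j0 then 1 else 0) * (b i j0 - β i j0) := by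
        funext i j
        by_cases hj : j = j0
        · subst hj
          rw [if_pos (Finset.mem_insert_self _ _), if_neg hj0, if_pos rfl]
          ring
        · rw [if_neg hj, zero_mul, add_zero]
          by_cases hT : j ∈ T
          · rw [if_pos (Finset.mem_insert_of_mem hT), if_pos hT]
          · rw [if_neg (by simp [hj, hT]), if_neg hT]
      rw [h3]
      exact h2
  have h2 : ∀ b : P → J → K, Spc k β b := by
    intro b
    have := h1 b Finset.univ
    simpa using this
  rw [algebraicIndependent_iff]
  intro f hf
  have h3 : MvPolynomial.map (algebraMap k K) f = 0 := by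
    apply MvPolynomial.funext
    intro x
    rw [map_zero, MvPolynomial.eval_map, ← MvPolynomial.aeval_def]
    exact h2 (fun i j => x (i, j)) f hf
  exact MvPolynomial.map_injective _ (algebraMap k K).injective (by rw [h3, map_zero])

end Pool.Agent.Helper79.LG
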