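import Pool.Agent.Helper79.LG.DR
import Pool.Agent.Helper79.LG.ROT

/-!
# Project LG, packet CORE: the generic minor
-/

universe u v

open scoped BigOperators

open Pool.Agent.Helper64.IG

namespace Pool.Agent.Helper79.LG

theorem core : G_CORE.{u, v} := by
  classical
  intro k K _ _ _ F₁ F₂ P J _ _ c u α y A β hα hu hu0 hy hA hβ hc2 hβ2 hy2
  set γ : P → K := fun i => α i / (c * u) with hγdef
  -- (1)
  have h1 : AlgebraicIndependent F₁ (Sum.elim α (fun _ : Unit => c)) := by
    have h2 := hα.comp (Sum.elim some (fun _ : Unit => none)) (by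
      intro a b hab
      cases a <;> cases b <;> simp_all)
    have h3 : ((fun o : Option P => o.elim c α) ∘ Sum.elim some (fun _ : Unit => none)) =
        Sum.elim α (fun _ : Unit => c) := by
      funext a
      cases a <;> rfl
    rwa [h3] at h2
  obtain ⟨hc1, hα1⟩ := AlgebraicIndependent.sumElim_iff.1 h1
  have hc0 : c ≠ 0 := by
    intro h0
    exact hc1.ne_zero () h0
  have hα2 := (IntermediateField.algebraicIndependent_adjoin_iff).2 hα1
  have hcmem : c ∈ IntermediateField.adjoin F₁ (Set.range (fun _ : Unit => c)) :=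
    IntermediateField.subset_adjoin _ _ ⟨(), rfl⟩
  have humem : u ∈ IntermediateField.adjoin F₁ (Set.range (fun _ : Unit => c)) :=
    (IntermediateField.adjoin F₁ (Set.range (fun _ : Unit => c))).algebraMap_mem ⟨u, hu⟩
  have hsmem : (c * u)⁻¹ ∈ IntermediateField.adjoin F₁ (Set.range (fun _ : Unit => c)) :=
    inv_mem (mul_mem hcmem humem)
  have hγ1 : AlgebraicIndependent (IntermediateField.adjoin F₁ (Set.range (fun _ : Unit => c)))
      γ := by
    have h3 := sm _ K P α (fun _ => (⟨(c * u)⁻¹, hsmem⟩ :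
      IntermediateField.adjoin F₁ (Set.range (fun _ : Unit => c)))) (by
        intro i h
        exact inv_ne_zero (mul_ne_zero hc0 hu0) (congrArg Subtype.val h)) hα2
    have h4 : (fun i => algebraMap (IntermediateField.adjoin F₁ (Set.range (fun _ : Unit => c))) K
        (⟨(c * u)⁻¹, hsmem⟩) * α i) = γ := by
      funext i
      show (c * u)⁻¹ * α i = α i / (c * u)
      rw [div_eq_inv_mul]
    rwa [h4] at h3
  have hγ2 := (IntermediateField.algebraicIndependent_adjoin_iff).1 hγ1
  have h5 : AlgebraicIndependent F₁ (Sum.elim γ (fun _ : Unit => c)) := hc1.sumElim hγ2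
  have h6 : AlgebraicIndependent F₁ (Sum.elim (fun _ : Unit => c) γ) := by
    have h7 := h5.comp Sum.swap (Equiv.sumComm _ _).injective
    have h8 : (Sum.elim γ (fun _ : Unit => c)) ∘ Sum.swap = Sum.elim (fun _ : Unit => c) γ := by
      funext a
      cases a <;> rfl
    rwa [h8] at h7
  obtain ⟨hγ, hcγ⟩ := AlgebraicIndependent.sumElim_iff.1 h6
  -- (2)
  have hinf : Infinite K := by
    have h7 := algebraicIndependent_iff_injective_aeval.1 hc1
    exact Infinite.of_injective _ h7
  -- (3)
  have hβi : AlgebraicIndependent k (fun ij : P × J => β ij.1 ij.2) := by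
    apply rot
    intro f hf
    let g : MvPolynomial P F₁ := MvPolynomial.aeval (fun ij : P × J =>
      (MvPolynomial.C (⟨A ij.1 ij.2, hA _ _⟩ : F₁) -
        MvPolynomial.C (⟨y ij.2, hy _⟩ : F₁) * MvPolynomial.X ij.1)) f
    have hg : MvPolynomial.aeval γ g = 0 := by
      rw [← hf]
      have h8 : (MvPolynomial.aeval (fun ij : P × J => β ij.1 ij.2) :
          MvPolynomial (P × J) k →ₐ[k] K) =
          ((MvPolynomial.aeval (R := F₁) γ).restrictScalars k).comp
            (MvPolynomial.aeval (fun ij : P × J =>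
              (MvPolynomial.C (⟨A ij.1 ij.2, hA _ _⟩ : F₁) -
                MvPolynomial.C (⟨y ij.2, hy _⟩ : F₁) * MvPolynomial.X ij.1))) := by
        apply MvPolynomial.algHom_ext
        intro ij
        simp only [MvPolynomial.aeval_X, AlgHom.comp_apply, AlgHom.restrictScalars_apply, map_sub,
          map_mul, MvPolynomial.aeval_C]
        exact hβ _ _
      rw [h8]
      rfl
    have hg0 : g = 0 := (algebraicIndependent_iff.1 hγ) g hg
    have h9 : MvPolynomial.aeval (fun ij : P × J => (MvPolynomial.C (β ij.1 ij.2) +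
        MvPolynomial.C (y ij.2) * MvPolynomial.X ij.1 : MvPolynomial P K)) f = 0 := by
      have h10 : (MvPolynomial.aeval (fun ij : P × J => (MvPolynomial.C (β ij.1 ij.2) +
          MvPolynomial.C (y ij.2) * MvPolynomial.X ij.1 : MvPolynomial P K)) :
          MvPolynomial (P × J) k →ₐ[k] MvPolynomial P K) =
          ((MvPolynomial.aeval (R := F₁) (fun i => (MvPolynomial.C (γ i) - MvPolynomial.X i :
            MvPolynomial P K))).restrictScalars k).comp
            (MvPolynomial.aeval (fun ij : P × J =>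
              (MvPolynomial.C (⟨A ij.1 ij.2, hA _ _⟩ : F₁) -
                MvPolynomial.C (⟨y ij.2, hy _⟩ : F₁) * MvPolynomial.X ij.1))) := by
        apply MvPolynomial.algHom_ext
        intro ij
        simp only [MvPolynomial.aeval_X, AlgHom.comp_apply, AlgHom.restrictScalars_apply, map_sub,
          map_mul, MvPolynomial.aeval_C]
        have e1 : algebraMap F₁ (MvPolynomial P K) ⟨A ij.1 ij.2, hA _ _⟩ =
          MvPolynomial.C (A ij.1 ij.2) := rfl
        have e2 : algebraMap F₁ (MvPolynomial P K) ⟨y ij.2, hy _⟩ =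
          MvPolynomial.C (y ij.2) := rfl
        rw [e1, e2, hβ, MvPolynomial.C_sub, MvPolynomial.C_mul]
        ring
      rw [h10]
      show MvPolynomial.aeval (R := F₁) _ g = 0
      rw [hg0, map_zero]
    let hh : MvPolynomial P (MvPolynomial J F₂) := MvPolynomial.aeval (fun ij : P × J =>
      (MvPolynomial.C (MvPolynomial.C (⟨β ij.1 ij.2, hβ2 _ _⟩ : F₂)) +
        MvPolynomial.C (MvPolynomial.X ij.2) * MvPolynomial.X ij.1)) f
    have h11 : MvPolynomial.mapAlgHom (MvPolynomial.aeval (R := F₂) y) hh = 0 := by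
      rw [← h9]
      have h12 : (MvPolynomial.aeval (fun ij : P × J => (MvPolynomial.C (β ij.1 ij.2) +
          MvPolynomial.C (y ij.2) * MvPolynomial.X ij.1 : MvPolynomial P K)) :
          MvPolynomial (P × J) k →ₐ[k] MvPolynomial P K) =
          ((MvPolynomial.mapAlgHom (MvPolynomial.aeval (R := F₂) y)).restrictScalars k).comp
            (MvPolynomial.aeval (fun ij : P × J =>
              (MvPolynomial.C (MvPolynomial.C (⟨β ij.1 ij.2, hβ2 _ _⟩ : F₂)) +
                MvPolynomial.C (MvPolynomial.X ij.2) * MvPolynomial.X ij.1))) := by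
        apply MvPolynomial.algHom_ext
        intro ij
        simp only [MvPolynomial.aeval_X, AlgHom.comp_apply, AlgHom.restrictScalars_apply, map_add,
          map_mul, MvPolynomial.mapAlgHom_apply, MvPolynomial.map_C, MvPolynomial.map_X]
        simp
      rw [h12]
      rfl
    have h13 : hh = 0 := by
      ext1 m
      rw [MvPolynomial.coeff_zero]
      apply (algebraicIndependent_iff.1 hy2)
      have h14 := congrArg (MvPolynomial.coeff m) h11
      rw [MvPolynomial.coeff_zero] at h14
      rw [← h14]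
      simp [MvPolynomial.coeff_map]
    have h15 : (MvPolynomial.aeval (fun ij : P × J => (MvPolynomial.C (β ij.1 ij.2) +
        MvPolynomial.X (Sum.inl ij.2) * MvPolynomial.X (Sum.inr ij.1) :
          MvPolynomial (J ⊕ P) K)) : MvPolynomial (P × J) k →ₐ[k] MvPolynomial (J ⊕ P) K) f =
        MvPolynomial.eval₂Hom ((MvPolynomial.aeval (R := F₂) (fun j => (MvPolynomial.X (Sum.inl j) :
          MvPolynomial (J ⊕ P) K))).toRingHom) (fun i => (MvPolynomial.X (Sum.inr i) :
          MvPolynomial (J ⊕ P) K)) hh := by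
      have h16 : ((MvPolynomial.aeval (fun ij : P × J => (MvPolynomial.C (β ij.1 ij.2) +
        MvPolynomial.X (Sum.inl ij.2) * MvPolynomial.X (Sum.inr ij.1) :
          MvPolynomial (J ⊕ P) K)) : MvPolynomial (P × J) k →ₐ[k] MvPolynomial (J ⊕ P) K) :
          MvPolynomial (P × J) k →+* MvPolynomial (J ⊕ P) K) =
        (MvPolynomial.eval₂Hom ((MvPolynomial.aeval (R := F₂) (fun j => (MvPolynomial.X (Sum.inl j) :
          MvPolynomial (J ⊕ P) K))).toRingHom) (fun i => (MvPolynomial.X (Sum.inr i) :
          MvPolynomial (J ⊕ P) K))).comp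
          ((MvPolynomial.aeval (fun ij : P × J =>
              (MvPolynomial.C (MvPolynomial.C (⟨β ij.1 ij.2, hβ2 _ _⟩ : F₂)) +
                MvPolynomial.C (MvPolynomial.X ij.2) * MvPolynomial.X ij.1)) :
              MvPolynomial (P × J) k →ₐ[k] MvPolynomial P (MvPolynomial J F₂)) :
              MvPolynomial (P × J) k →+* MvPolynomial P (MvPolynomial J F₂)) := by
        apply MvPolynomial.ringHom_ext
        · intro r
          simp only [RingHom.comp_apply, RingHom.coe_coe, MvPolynomial.aeval_C]
          have e3 : algebraMap k (MvPolynomial P (MvPolynomial J F₂)) r =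
            MvPolynomial.C (MvPolynomial.C (algebraMap k F₂ r)) := rfl
          rw [e3]
          simp
        · intro ij
          simp only [RingHom.comp_apply, RingHom.coe_coe, MvPolynomial.aeval_X]
          simp
      exact congrArg (fun φ : MvPolynomial (P × J) k →+* MvPolynomial (J ⊕ P) K => φ f) h16
    rw [h15, h13, map_zero]
  -- (4)
  have h20 : AlgebraicIndependent k (Sum.elim (fun _ : Unit => c)
      (fun ij : P × J => β ij.1 ij.2)) := by
    have h21 : Set.range (fun ij : P × J => β ij.1 ij.2) ⊆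
        Set.range (algebraMap (Algebra.adjoin F₁ (Set.range γ)) K) := by
      rintro _ ⟨ij, rfl⟩
      have h22 : β ij.1 ij.2 ∈ Algebra.adjoin F₁ (Set.range γ) := by
        rw [hβ]
        refine sub_mem ?_ (mul_mem ?_ ?_)
        · exact (Algebra.adjoin F₁ (Set.range γ)).algebraMap_mem ⟨_, hA _ _⟩
        · exact (Algebra.adjoin F₁ (Set.range γ)).algebraMap_mem ⟨_, hy _⟩
        · exact Algebra.subset_adjoin ⟨ij.1, rfl⟩
      exact ⟨⟨_, h22⟩, rfl⟩
    exact hβi.sumElim_of_tower h21 hcγ
  have h23 : AlgebraicIndependent k (Sum.elim y (Sum.elim (fun _ : Unit => c)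
      (fun ij : P × J => β ij.1 ij.2))) := by
    have h24 : Set.range (Sum.elim (fun _ : Unit => c) (fun ij : P × J => β ij.1 ij.2)) ⊆
        Set.range (algebraMap F₂ K) := by
      rintro _ ⟨a, rfl⟩
      cases a with
      | inl a => exact ⟨⟨c, hc2⟩, rfl⟩
      | inr a => exact ⟨⟨_, hβ2 a.1 a.2⟩, rfl⟩
    exact h20.sumElim_of_tower h24 hy2
  have h25 := h23.comp (Sum.elim (fun ij => Sum.inr (Sum.inr ij))
    (Sum.elim (fun t => Sum.inr (Sum.inl t)) (fun j => Sum.inl j)) :
      (P × J) ⊕ (Unit ⊕ J) → J ⊕ (Unit ⊕ (P × J))) (by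
    intro a b hab
    rcases a with a | a | a <;> rcases b with b | b | b <;> simp_all)
  have h26 : (Sum.elim y (Sum.elim (fun _ : Unit => c) (fun ij : P × J => β ij.1 ij.2))) ∘
      (Sum.elim (fun ij => Sum.inr (Sum.inr ij))
    (Sum.elim (fun t => Sum.inr (Sum.inl t)) (fun j => Sum.inl j)) :
      (P × J) ⊕ (Unit ⊕ J) → J ⊕ (Unit ⊕ (P × J))) =
      Sum.elim (fun ij : P × J => β ij.1 ij.2) (Sum.elim (fun _ : Unit => c) y) := by
    funext a
    rcases a with a | a | a <;> rfl
  rwa [h26] at h25

end Pool.Agent.Helper79.LG
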