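import Pool.Agent.Helper79.LG.Goals

/-!
# Project LG, packets CR, EX, AD: coordinates of decomposable forms
-/

universe u v

open scoped BigOperators

open Pool.Agent.Helper64.IG

namespace Pool.Agent.Helper79.LG

theorem cr : G_CR.{u} := by
  classical
  intro K _ n p ω hω B hB a
  obtain ⟨c, φ, h⟩ := hω
  set M : Matrix (Fin p) (Fin p) K := fun i j => φ i (B j) with hM
  have hBM : ω B = c * M.det := h B
  have hdet : M.det ≠ 0 := by
    intro h0
    apply hB
    rw [hBM, h0, mul_zero]
  have hc : c ≠ 0 := by
    intro h0
    apply hB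
    rw [hBM, h0, zero_mul]
  have h1 : ∀ (i : Fin p) (x : Ix n p), ω (Function.update B i x) / ω B =
      (M⁻¹.mulVec (fun l => φ l x)) i := by
    intro i x
    have h2 : ω (Function.update B i x) = c * (M.updateCol i (fun l => φ l x)).det := by
      rw [h]
      congr 2
      funext l j
      by_cases hj : j = i
      · subst hj
        simp [Matrix.updateCol_self]
      · rw [Matrix.updateCol_ne hj, Function.update_of_ne hj]
    rw [h2, ← Matrix.cramer_apply, Matrix.cramer_eq_adjugate_mulVec, hBM, Matrix.inv_def,
      Ring.inverse_eq_inv', Matrix.smul_mulVec, Pi.smul_apply, smul_eq_mul]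
    field_simp
  have h3 : (fun i j => ω (Function.update B i (a j)) / ω B : Matrix (Fin p) (Fin p) K) =
      M⁻¹ * (Matrix.of fun l j => φ l (a j) : Matrix (Fin p) (Fin p) K) := by
    funext i j
    rw [h1]
    rfl
  rw [h3, Matrix.det_mul, h a, hBM, Matrix.det_nonsing_inv, Ring.inverse_eq_inv']
  show c * (Matrix.of fun l j => φ l (a j) : Matrix (Fin p) (Fin p) K).det = _
  field_simp

/-- repeated arguments -/
theorem rep_zero {K : Type u} [Field K] {n p : ℕ} {ω : Form K n p} (hω : IsDec ω)
    {a : Fin p → Ix n p} {i j : Fin p} (hij : i ≠ j) (h : a i = a j) : ω a = 0 := by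
  obtain ⟨c, φ, hφ⟩ := hω
  rw [hφ, Matrix.det_zero_of_column_eq hij (by intro l; simp only [h]), mul_zero]

theorem inj_of_ne {K : Type u} [Field K] {n p : ℕ} {ω : Form K n p} (hω : IsDec ω)
    {a : Fin p → Ix n p} (h : ω a ≠ 0) : Function.Injective a := by
  intro i j hij
  by_contra hne
  exact h (rep_zero hω hne hij)

theorem det_two {K : Type u} [Field K] {p : ℕ} (D : Matrix (Fin p) (Fin p) K) {i j : Fin p}
    (hij : i ≠ j) (h : ∀ l m, l ≠ i → l ≠ j → D m l = if m = l then 1 else 0) :
    D.det = D i i * D j j - D i j * D j i := by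
  classical
  let U : Matrix (Fin p) (Fin 2) K := fun l s =>
    if s = 0 then D l i - (if l = i then 1 else 0) else D l j - (if l = j then 1 else 0)
  let V : Matrix (Fin 2) (Fin p) K := fun s l =>
    if s = 0 then (if l = i then 1 else 0) else (if l = j then 1 else 0)
  have h1 : D = 1 + U * V := by
    funext m l
    rw [Matrix.add_apply, Matrix.mul_apply, Fin.sum_univ_two]
    simp only [U, V, if_true, Fin.one_eq_zero_iff, OfNat.ofNat_ne_one, if_false]
    by_cases hl : l = i
    · subst hl
      rw [if_pos rfl, if_neg hij, mul_one, mul_zero, add_zero, Matrix.one_apply]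
      ring
    · by_cases hl2 : l = j
      · subst hl2
        rw [if_neg hl, if_pos rfl, mul_one, mul_zero, zero_add, Matrix.one_apply]
        ring
      · rw [if_neg hl, if_neg hl2, mul_zero, mul_zero, add_zero, add_zero, Matrix.one_apply,
          h l m hl hl2]
  have h2 : (V * U) = !![D i i - 1, D i j; D j i, D j j - 1] := by
    ext s t
    rw [Matrix.mul_apply]
    fin_cases s <;> fin_cases t <;> simp [U, V, hij, hij.symm]
  rw [h1, Matrix.det_one_add_mul_comm, h2, Matrix.det_fin_two]
  rw [← h1]
  simp

theorem ex : G_EX.{u} := by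
  classical
  intro K _ n p ω hω B hB i j hij e g
  have h1 := cr K n p ω hω B hB (Function.update (Function.update B i e) j g)
  rw [h1]
  have h2 : ∀ l m : Fin p, ω (Function.update B m (B l)) / ω B = if m = l then 1 else 0 := by
    intro l m
    by_cases hml : m = l
    · subst hml
      rw [Function.update_eq_self, div_self hB, if_pos rfl]
    · rw [if_neg hml, rep_zero hω (i := m) (j := l) hml (by
        rw [Function.update_self, Function.update_of_ne (Ne.symm hml)]), zero_div]
  rw [det_two _ hij (by
    intro l m hli hlj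
    rw [Function.update_of_ne hlj, Function.update_of_ne hli]
    exact h2 l m)]
  rw [Function.update_self, Function.update_of_ne hij, Function.update_self]
  field_simp

theorem det_mem {K : Type u} [Field K] {k : Type v} [Field k] [Algebra k K]
    (L : IntermediateField k K) {p : ℕ} (D : Matrix (Fin p) (Fin p) K) (h : ∀ i j, D i j ∈ L) :
    D.det ∈ L := by
  rw [Matrix.det_apply]
  refine sum_mem fun σ _ => ?_
  rw [Units.smul_def]
  exact zsmul_mem (prod_mem fun i _ => h _ _) _

theorem ad : G_AD.{u, v} := by
  classical
  intro k K _ _ _ n p ω hω B e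
  constructor
  · rintro he hB _ ⟨a, rfl⟩
    set L := IntermediateField.adjoin k
      (del ω e ∪ Set.range fun i => ω (Function.update B i e)) with hL
    have hBL : ω B ∈ L := IntermediateField.subset_adjoin _ _ (Or.inl ⟨B, he, rfl⟩)
    have h1 : ∀ (i : Fin p) (x : Ix n p), ω (Function.update B i x) ∈ L := by
      intro i x
      by_cases hx : x = e
      · subst hx
        exact IntermediateField.subset_adjoin _ _ (Or.inr ⟨i, rfl⟩)
      · refine IntermediateField.subset_adjoin _ _ (Or.inl ⟨_, ?_, rfl⟩)
        rintro ⟨l, hl⟩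
        by_cases hli : l = i
        · subst hli
          rw [Function.update_self] at hl
          exact hx hl
        · rw [Function.update_of_ne hli] at hl
          exact he ⟨l, hl⟩
    rw [cr K n p ω hω B hB a]
    exact mul_mem hBL (det_mem L _ fun i j => div_mem (h1 i (a j)) hBL)
  · rintro i₀ hB' _ ⟨a, rfl⟩
    set L := IntermediateField.adjoin k
      (con ω e ∪ Set.range fun g => ω (Function.update B i₀ g)) with hL
    have hBL : ω (Function.update B i₀ e) ∈ L :=
      IntermediateField.subset_adjoin _ _ (Or.inl ⟨_, ⟨i₀, Function.update_self _ _ _⟩, rfl⟩)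
    have h1 : ∀ (i : Fin p) (x : Ix n p),
        ω (Function.update (Function.update B i₀ e) i x) ∈ L := by
      intro i x
      by_cases hi : i = i₀
      · subst hi
        rw [Function.update_idem]
        exact IntermediateField.subset_adjoin _ _ (Or.inr ⟨x, rfl⟩)
      · refine IntermediateField.subset_adjoin _ _ (Or.inl ⟨_, ⟨i₀, ?_⟩, rfl⟩)
        rw [Function.update_of_ne (Ne.symm hi), Function.update_self]
    rw [cr K n p ω hω _ hB' a]
    exact mul_mem hBL (det_mem L _ fun i j => div_mem (h1 i (a j)) hBL)

end Pool.Agent.Helper79.LG
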