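import Pool.Agent.Helper79.LG.MAIN
import Pool.Agent.Helper53.LG.SPEC
import Pool.Agent.Helper64.LG.MINOR
import Pool.Agent.Helper88.LG.LOCAL
import Pool.Agent.Helper39.LG.DC
import Pool.Agent.Helper49.LG.BASE
import Pool.Agent.Helper57.LG.RAISE
import Pool.Agent.Helper87.LG.GEN

/-!
# Project LG: assembly
-/

universe u v

open Pool.Agent.Helper64.IG

namespace Pool.Agent.Helper79.LG

/-- The transcendence degree over `k` of the field generated by the coordinates of `x` of the level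
`(n, p)`. -/
noncomputable def tdeg (k : Type v) {K : Type u} [Field k] [Field K] [Algebra k K] (x : Pt K)
    (n p : ℕ) : Cardinal.{u} :=
  Algebra.trdeg k (IntermediateField.adjoin k (Set.range (x.x n p)))

theorem linearGrowth (k : Type v) (K : Type u) [Field k] [Field K] [Algebra k K] (C : Set (Pt K))
    (hC : NStable {1, -1} C) :
    (∀ (m q : ℕ) (f : MvPolynomial (Fin (q + 1) → Ix (m + 1) (q + 1)) k),
      (∀ x ∈ C, Sat x (⟨m + 1, q + 1, f⟩ : Eqn k)) →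
      (∃ x : Pt K, ¬ Sat x (⟨m + 1, q + 1, f⟩ : Eqn k)) →
      ∀ n p : ℕ, ∀ x ∈ C, tdeg k x n p ≤ ((q * n + m * p + 1 : ℕ) : Cardinal)) ∧
    (IsZClosed k C →
      (C = Set.univ ∧ ∀ n p : ℕ, ((n * p + 1 : ℕ) : Cardinal) ≤ Algebra.trdeg k K →
        ∃ x ∈ C, tdeg k x n p = ((n * p + 1 : ℕ) : Cardinal)) ∨
      ∃ a b : ℕ, ∀ n p : ℕ, ∀ x ∈ C, tdeg k x n p ≤ ((a * n + b * p + 1 : ℕ) : Cardinal)) := by
  obtain ⟨h1, h2⟩ := final (Pool.Agent.Helper88.LG.local' Pool.Agent.Helper53.LG.spec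
      (Pool.Agent.Helper64.LG.minor' (PkMONO.mono PkACT.act)))
    Pool.Agent.Helper39.LG.dc Pool.Agent.Helper49.LG.base Pool.Agent.Helper57.LG.raise
    Pool.Agent.Helper87.LG.gen k K
  obtain ⟨h3, h4⟩ := h1 C hC
  refine ⟨h3, fun hcl => ?_⟩
  by_cases hu : C = Set.univ
  · left
    refine ⟨hu, fun n p hnp => ?_⟩
    obtain ⟨x, hx⟩ := h2 n p hnp
    exact ⟨x, by rw [hu]; exact Set.mem_univ x, hx⟩
  · exact Or.inr (h4 hcl hu)

end Pool.Agent.Helper79.LG
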