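import Pool.Agent.Helper64.IG.Defs

/-!
# Project LG (MP_d01c92_ag): linear growth of proper closed subsets of the infinite Grassmannian

THEOREM. Let `k ⊆ K` be fields and `C` a set of `K`-points of the affine infinite Grassmannian
which is stable under signed permutations. Suppose that some equation over `k` of level
`(m + 1, q + 1)` holds on `C` but not at all `K`-points. Then for all `n, p` and `x ∈ C` the field
generated over `k` by the coordinates of `x` of level `(n, p)` has transcendence degree at most
`q * n + m * p + 1`. In particular (closed sets, all levels) every proper closed stable subset has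
linear growth, while the whole space has dimension `n * p + 1` at level `(n, p)` (part GEN).

Every goal below is a `Prop`; its proof is in the comment. All definitions are in
`Pool/Agent/Helper64/IG/Defs.lean` (`Ix n p = Fin n ⊕ Fin p`, `Form K n p = (Fin p → Ix n p) → K`,
`IsDec ω : ∃ c φ, ∀ a, ω a = c * det (fun i j => φ i (a j))`).
-/

universe u v

open scoped BigOperators

open Pool.Agent.Helper64.IG

namespace Pool.Agent.Helper79.LG

/-- The field generated by `S` over `k` has transcendence degree at most `m`. -/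
def TdLe (k : Type v) {K : Type u} [Field k] [Field K] [Algebra k K] (S : Set K) (m : ℕ) : Prop :=
  Algebra.trdeg k (IntermediateField.adjoin k S) ≤ (m : Cardinal.{u})

/-- The coordinates that do not involve `e` (deletion of `e`). -/
def del {K : Type u} {n p : ℕ} (ω : Form K n p) (e : Ix n p) : Set K :=
  ω '' {a | e ∉ Set.range a}

/-- The coordinates that involve `e` (contraction of `e`). -/
def con {K : Type u} {n p : ℕ} (ω : Form K n p) (e : Ix n p) : Set K :=
  ω '' {a | e ∈ Set.range a}

/-! ## Part 1: field theory -/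

/-- MN (monotonicity).
PROOF. `adjoin k S ≤ adjoin k T`, and the transcendence degree is monotone
(`Algebra.trdeg_le_of_injective`-like lemma for the inclusion). -/
def G_MN : Prop :=
  ∀ (k : Type v) (K : Type u) [Field k] [Field K] [Algebra k K] (S T : Set K) (m : ℕ),
    S ⊆ IntermediateField.adjoin k T → TdLe k T m → TdLe k S m

/-- DR (dropping the field generators `u i`).
PROOF. Let `F = adjoin k S₁`, `L = adjoin F (range u)` (an intermediate field of `K / F`). Some
subfamily of `u` is a transcendence basis of `L / F` (`exists_isTranscendenceBasis_subset` or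
`_between`); it has at most `r` members, otherwise `r + 1` of them would give an injective `I` with
`u ∘ I` algebraically independent over `F`. So `trdeg F L ≤ r`, `trdeg k L = trdeg k F + trdeg F L ≤
m + r` (`Algebra.trdeg_add_eq`), and `adjoin k S` is contained in `L`. -/
def G_DR : Prop :=
  ∀ (k : Type v) (K : Type u) [Field k] [Field K] [Algebra k K] (S S₁ : Set K) (ι : Type)
    [Fintype ι] (w : ι → K) (r m : ℕ),
    S ⊆ IntermediateField.adjoin k (S₁ ∪ Set.range w) →
    (∀ I : Fin (r + 1) → ι, Function.Injective I →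
      ¬ AlgebraicIndependent (IntermediateField.adjoin k S₁) (fun i => w (I i))) →
    TdLe k S₁ m → TdLe k S (m + r)

/-- SM (scaling by nonzero scalars of the base field).
PROOF. `aeval (fun i => u i • x i) = (aeval x).comp (aeval fun i => C (u i) * X i)`, and the second
map is injective, because `aeval fun i => C (u i)⁻¹ * X i` is a left inverse. -/
def G_SM : Prop :=
  ∀ (F : Type v) (K : Type u) [Field F] [Field K] [Algebra F K] (ι : Type) (x : ι → K) (s : ι → F),
    (∀ i, s i ≠ 0) → AlgebraicIndependent F x →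
    AlgebraicIndependent F (fun i => algebraMap F K (s i) * x i)

/-- ROT (a matrix that absorbs rank one matrices is generic).
Hypothesis `h`: whenever `f` (over `k`) vanishes at `β`, then `f (β + Y ⊗ Z) = 0` in the polynomial
ring over `K` in the variables `Y_j` (`inl j`) and `Z_i` (`inr i`).
PROOF. Call `b : P → J → K` a specialization of `β` if every `f` over `k` with `f (β) = 0`
satisfies `f (b) = 0`. `β` is one. If `b` is one, so is `b + y' ⊗ z'` for all `y', z'` over `K`:
let `h = f (B + Y ⊗ Z)`, a polynomial in `Y, Z` with coefficients `h_m` in `k[B]`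
(`MvPolynomial (J ⊕ P) (MvPolynomial (P × J) k)`); if `f (β) = 0` then by hypothesis
`h_m (β) = 0` for all `m`, so `h_m (b) = 0` for all `m`, so `f (b + y' ⊗ z') = 0`. As every matrix
is a sum of matrices `y' ⊗ z'` (`y' = ` a coordinate vector, `z' = ` a column), all
`b : P → J → K` are specializations of `β` (induction on the number of the changed columns, or of
the changed entries). So `f (β) = 0` implies that `f` vanishes on `K^(P × J)`, and `f = 0` as `K` is
infinite (`MvPolynomial.funext` after `map (algebraMap k K)`, which is injective). -/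
def G_ROT : Prop :=
  ∀ (k : Type v) (K : Type u) [Field k] [Field K] [Algebra k K] [Infinite K] (P J : Type)
    [Fintype P] [Fintype J] (β : P → J → K),
    (∀ f : MvPolynomial (P × J) k, MvPolynomial.aeval (fun ij : P × J => β ij.1 ij.2) f = 0 →
      MvPolynomial.aeval (fun ij : P × J => (MvPolynomial.C (β ij.1 ij.2) +
        MvPolynomial.X (Sum.inl ij.2) * MvPolynomial.X (Sum.inr ij.1) :
          MvPolynomial (J ⊕ P) K)) f = 0) →
    AlgebraicIndependent k (fun ij : P × J => β ij.1 ij.2)

/-- CORE (extra hypotheses `G_SM`, `G_ROT`). `c = α_0` is `c`, `α` are the other `α_i`, `u = ω(B)`.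
PROOF. (1) `α` is algebraically independent over `F₁(c)` and `c` is transcendental over `F₁`
(`AlgebraicIndependent.sumElim_iff` / `option_iff` after a reindexing). `γ i = α i / (c * u)` is `α`
scaled by a nonzero element of `F₁(c)`, so by SM `γ` is algebraically independent over `F₁(c)`; so
`(c, γ)` is algebraically independent over `F₁`, hence `γ` is algebraically independent over `F₁`
and `c` is transcendental over `F₁(γ)`. As `y j, A i j ∈ F₁`, `β i j = A i j - y j * γ i ∈ F₁(γ)`.
(2) `K` is infinite (it contains the element `c`, transcendental over `F₁`). (3) `β` is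
algebraically independent over `k`: by ROT it suffices that `f (β) = 0` implies
`f (β + Y ⊗ Z) = 0`. First `g (Z) := f (A - y ⊗ Z)`, a polynomial over `F₁`, vanishes at `γ`, so it
is `0`, and its value at `γ - Z` (in the polynomial ring over `K`) is `f (β + y ⊗ Z) = 0`. Every
coefficient of `f (β + Y ⊗ Z)` as polynomial in `Z` is a polynomial in `Y` with coefficients in
`F₂` (`β i j ∈ F₂`) which vanishes at `Y = y`, so it is `0`. (4) `c` is transcendental over `F₁(γ)`,
which contains `k(β)`, so `(β, c)` is algebraically independent over `k`; `y` is algebraically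
independent over `F₂`, which contains `k(β, c)`, so `(β, c, y)` is algebraically independent over
`k`. -/
def G_CORE : Prop :=
  ∀ (k : Type v) (K : Type u) [Field k] [Field K] [Algebra k K] (F₁ F₂ : IntermediateField k K)
    (P J : Type) [Fintype P] [Fintype J] (c u : K) (α : P → K) (y : J → K) (A β : P → J → K),
    AlgebraicIndependent F₁ (fun o : Option P => o.elim c α) → u ∈ F₁ → u ≠ 0 →
    (∀ j, y j ∈ F₁) → (∀ i j, A i j ∈ F₁) →
    (∀ i j, β i j = A i j - y j * (α i / (c * u))) →
    c ∈ F₂ → (∀ i j, β i j ∈ F₂) → AlgebraicIndependent F₂ y →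
    AlgebraicIndependent k (Sum.elim (fun ij : P × J => β ij.1 ij.2)
      (Sum.elim (fun _ : Unit => c) y))

/-! ## Part 2: decomposable forms -/

/-- CR (coordinates in the chart of a nonzero coordinate).
PROOF. `ω a = c * det (Φ_a)`, `Φ_a i j = φ i (a j)`, so `c ≠ 0` and `Φ_B` is invertible. By
Cramer's rule `ω (update B i x) / ω B = (Φ_B⁻¹ * Φ x) i` for the column `Φ x = (φ l x)_l`. So the
matrix on the right is `Φ_B⁻¹ * Φ_a`, of determinant `det Φ_a / det Φ_B`. -/
def G_CR : Prop :=
  ∀ (K : Type u) [Field K] (n p : ℕ) (ω : Form K n p), IsDec ω → ∀ B : Fin p → Ix n p,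
    ω B ≠ 0 → ∀ a, ω a = ω B * Matrix.det (fun i j => ω (Function.update B i (a j)) / ω B)

/-- EX (exchange relation; extra hypothesis `G_CR`).
PROOF. CR for `a = update (update B i e) j g`: in the chart `B` the columns of the matrix at
`l ≠ i, j` are the standard basis vectors (`ω (update B m (B l)) = 0` for `m ≠ l`, because two
arguments are equal), so its determinant is the `2 × 2` minor in the rows `i, j`. (Or directly:
Gaussian elimination as in `det_red` of `Pool/Agent/Helper93/IG/ACT.lean`.) -/
def G_EX : Prop :=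
  ∀ (K : Type u) [Field K] (n p : ℕ) (ω : Form K n p), IsDec ω → ∀ B : Fin p → Ix n p,
    ω B ≠ 0 → ∀ (i j : Fin p), i ≠ j → ∀ e g : Ix n p,
    ω (Function.update (Function.update B i e) j g) * ω B =
      ω (Function.update B i e) * ω (Function.update B j g) -
        ω (Function.update B i g) * ω (Function.update B j e)

/-- AD (generators; extra hypothesis `G_CR`).
PROOF. CR expresses `ω a` by `ω B` and the `ω (update B i (a j))` with sums, products and divisions.
First statement: `e ∉ range B`, so `ω B ∈ del ω e`, and `ω (update B i x)` is `ω (update B i e)` if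
`x = e` and in `del ω e` otherwise. Second statement: put `B' = update B i₀ e`, `ω B' ≠ 0`,
`ω B' ∈ con ω e`; `ω (update B' i x)` is `ω (update B i₀ x)` if `i = i₀`, and it is in `con ω e` if
`i ≠ i₀`, since `update B' i x i₀ = e`. -/
def G_AD : Prop :=
  ∀ (k : Type v) (K : Type u) [Field k] [Field K] [Algebra k K] (n p : ℕ) (ω : Form K n p),
    IsDec ω → ∀ (B : Fin p → Ix n p) (e : Ix n p),
    (e ∉ Set.range B → ω B ≠ 0 → Set.range ω ⊆ IntermediateField.adjoin k
      (del ω e ∪ Set.range fun i => ω (Function.update B i e))) ∧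
    (∀ i₀, ω (Function.update B i₀ e) ≠ 0 → Set.range ω ⊆ IntermediateField.adjoin k
      (con ω e ∪ Set.range fun g => ω (Function.update B i₀ g)))

/-- SPEC (a decomposable form with algebraically independent chart coordinates is generic; extra
hypothesis `G_CR`).
PROOF. Let `V = (Fin q × Fin (m + 1)) ⊕ Unit ⊕ Fin (m + 1)` be the variables `(β_ij, c, y_j)`. For
`b : Fin (q + 1) → Ix (m + 1) (q + 1)` let `G_b = det (E i (b j))`, a polynomial over `k`, where
`E 0 (inr 0) = c`, `E 0 (inr (s + 1)) = 0`, `E 0 (inl j) = y_j`, `E (i + 1) (inr s) = 1` if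
`s = i + 1` and `0` otherwise, `E (i + 1) (inl j) = β_ij`. By CR in the chart `B = inr`
(`ω (update inr i (inr s)) = 0` for `s ≠ i`) `u b = G_b (c, y, β)` for `c = u inr`,
`y j = u (update inr 0 (inl j))`, `β i j = u (update inr (i + 1) (inl j)) / u inr` (multiply the
row `0` of the determinant by `u inr`). The same holds for `u'` with `(c', y', β')` if
`u' inr ≠ 0`; if `u' = 0` it holds with `c' = 0, y' = 0` (the row `0` vanishes). Now
`g (u) = 0` says that the polynomial `g (G)` over `k` vanishes at `(β, c, y)`, so it is `0`, and its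
value at `(β', c', y')` is `g (u')`. -/
def G_SPEC : Prop :=
  ∀ (k : Type v) (K : Type u) [Field k] [Field K] [Algebra k K] (m q : ℕ)
    (u u' : Form K (m + 1) (q + 1)), IsDec u → IsDec u' → u Sum.inr ≠ 0 →
    (u' = 0 ∨ u' Sum.inr ≠ 0) →
    AlgebraicIndependent k (Sum.elim
      (fun ij : Fin q × Fin (m + 1) =>
        u (Function.update Sum.inr ij.1.succ (Sum.inl ij.2)) / u Sum.inr)
      (Sum.elim (fun _ : Unit => u Sum.inr)
        (fun j : Fin (m + 1) => u (Function.update Sum.inr 0 (Sum.inl j))))) →
    ∀ g : MvPolynomial (Fin (q + 1) → Ix (m + 1) (q + 1)) k,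
      MvPolynomial.aeval u g = 0 → MvPolynomial.aeval u' g = 0

/-! ## Part 3: points -/

/-- RS (restriction to a smaller level).
PROOF. First `m = n` by induction on `q - p` (`theta_eq`: `x.x n q a = x.x n (q + 1)
(Fin.cons (inr q) (inc ∘ a))`), then induction on `m - n` (`xi_eq`). Only the existence of the
injective `S` is used, so no explicit formula is needed: `S` lists `q - p` elements `inr _`. -/
def G_RS : Prop :=
  ∀ (K : Type u) [Field K] (x : Pt K) (n p m q : ℕ) (hn : n ≤ m) (hp : p ≤ q),
    ∃ S : Fin (q - p) → Ix m q, Function.Injective (Sum.elim S (inc hn hp)) ∧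
      ∀ a : Fin p → Ix n p, x.x n p a =
        x.x m q (fun j => Fin.append S (inc hn hp ∘ a) (Fin.cast (by omega) j))

/-- MINOR (extra hypotheses `G_RS`, `G_MONO`).
`Function.extend I (τ ∘ a) B` is `τ (a j)` at `I j` and `B i` at the other `i`.
PROOF. Let `π` be a permutation of `Fin p` with `π (p - p₀ + j) = I j` and `σ` a permutation of
`Ix n p` with `σ (S j) = B (π j)` for `j < p - p₀` and `σ (inc x) = τ x`; it exists, as both sides
are injective. MONO with `t = 1` gives `y ∈ C` with `y.x n p a = x.x n p (σ ∘ a)`, so by RS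
`y.x n₀ p₀ a = x.x n p (σ ∘ append S (inc ∘ a)) = x.x n p (extend I (τ ∘ a) B ∘ π) =
sign π * x.x n p (extend I (τ ∘ a) B)`, since `x.x n p` is decomposable. -/
def G_MINOR : Prop :=
  ∀ (K : Type u) [Field K] (C : Set (Pt K)), NStable {1, -1} C → ∀ x ∈ C, ∀ (n p n₀ p₀ : ℕ),
    n₀ ≤ n → ∀ (B : Fin p → Ix n p) (I : Fin p₀ → Fin p) (τ : Ix n₀ p₀ → Ix n p),
    Function.Injective B → Function.Injective I → Function.Injective τ →
    (∀ i, i ∉ Set.range I → B i ∉ Set.range τ) →
    ∃ y ∈ C, ∃ ε : K, (ε = 1 ∨ ε = -1) ∧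
      ∀ a : Fin p₀ → Ix n₀ p₀, y.x n₀ p₀ a = ε * x.x n p (Function.extend I (τ ∘ a) B)

/-- LOCAL (the main step; extra hypotheses `G_SM`, `G_CORE`, `G_CR`, `G_EX`, `G_SPEC`, `G_MINOR`).
Notation: `ω = x.x n p`, `α i = ω (update B (I i) e)`, `y j = ω (update B (I 0) (g j))`.
PROOF. `c := α 0 ≠ 0`; `B' = update B (I 0) e`, `ω B' = c`. All `g j` are outside `range B'`: if
`g j = e` then `y j = c ∈ con ω e`; if `g j = B' i = B i` with `i ≠ I 0` then `y j = 0` (two
arguments equal); both contradict the transcendence of `y j` over `adjoin k (con ω e)`. So with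
`τ (inr i) = B' (I i)`, `τ (inl j) = g j` the hypotheses of MINOR hold (`B` is injective as
`ω B ≠ 0`, and so is `B'`; `m + 1 ≤ n` because `g` and `B'` have disjoint ranges in `Ix n p`).
Let `e` be the given equation, `ω' = x'.x (m + 1) (q + 1)` with `¬ Sat x' e`. Choose `a₀` injective
with `ω' = 0 ∨ ω' a₀ ≠ 0`, and a permutation `ρ` of `Ix (m + 1) (q + 1)` with `ρ (inr i) = a₀ i`.
MINOR for `τ ∘ ρ⁻¹` gives `z ∈ C` with `z.x (m + 1) (q + 1) a = ε * ω (extend I (τ ∘ ρ⁻¹ ∘ a) B)`.
Put `u b = z.x (m + 1) (q + 1) (ρ ∘ b) = ε * ω (extend I (τ ∘ b) B)` and `u' b = ω' (ρ ∘ b)`; both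
are decomposable; `u inr = ε * c`, `u (update inr 0 (inl j)) = ε * y j`,
`u (update inr (i + 1) (inl j)) / u inr = ω (update B' (I (i + 1)) (g j)) / c =: β i j`.
By EX (for `I 0 ≠ I (i + 1)`) `β i j = A i j - y j * (α (i + 1) / (c * ω B))` with
`A i j = ω (update B (I (i + 1)) (g j)) / ω B`. Put `F₁ = adjoin k (del ω e)`,
`F₂ = adjoin k (con ω e)`. As `e ∉ range B`, `g j ≠ e`: `ω B, y j, A i j ∈ F₁`; and
`c, β i j ∈ F₂` (the arguments contain `e` at the place `I 0`). CORE with `P = Fin q`,
`J = Fin (m + 1)` says that `(β, c, y)` is algebraically independent over `k`, hence so is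
`(β, ε c, ε y)` (SM). By SPEC for `g = rename (fun a => ρ⁻¹ ∘ a) f`, `aeval u g = aeval (z.x ..) f =
0` implies `aeval ω' f = aeval u' g = 0`: contradiction. -/
def G_LOCAL : Prop :=
  ∀ (k : Type v) (K : Type u) [Field k] [Field K] [Algebra k K] (C : Set (Pt K)),
    NStable {1, -1} C → ∀ (m q : ℕ) (f : MvPolynomial (Fin (q + 1) → Ix (m + 1) (q + 1)) k),
    (∀ x ∈ C, Sat x (⟨m + 1, q + 1, f⟩ : Eqn k)) →
    (∃ x : Pt K, ¬ Sat x (⟨m + 1, q + 1, f⟩ : Eqn k)) →
    ∀ x ∈ C, ∀ (n p : ℕ) (B : Fin p → Ix n p) (e : Ix n p), x.x n p B ≠ 0 → e ∉ Set.range B →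
    ∀ I : Fin (q + 1) → Fin p, Function.Injective I →
    AlgebraicIndependent (IntermediateField.adjoin k (del (x.x n p) e))
      (fun i => x.x n p (Function.update B (I i) e)) →
    ∀ g : Fin (m + 1) → Ix n p, Function.Injective g →
    ¬ AlgebraicIndependent (IntermediateField.adjoin k (con (x.x n p) e))
      (fun j => x.x n p (Function.update B (I 0) (g j)))

/-- STEP (extra hypotheses `G_MN`, `G_DR`, `G_AD`, `G_LOCAL`).
PROOF. `ω = x.x n p`. If there is no `B` with `ω B ≠ 0`, `e ∉ range B` then every coordinate is `0`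
or in `con ω e`, and the second alternative holds (MN). Otherwise fix `B`. If the first alternative
fails, DR (with `S = range ω`, `S₁ = del ω e`, `w i = ω (update B i e)`, AD) gives an injective
`I : Fin (q + 1) → Fin p` with `w ∘ I` algebraically independent over `adjoin k (del ω e)`; so
`w (I 0) ≠ 0`. If the second one fails too, DR (`S₁ = con ω e`, `w g = ω (update B (I 0) g)`, AD)
gives `g : Fin (m + 1) → Ix n p`, contradicting LOCAL. -/
def G_STEP : Prop :=
  ∀ (k : Type v) (K : Type u) [Field k] [Field K] [Algebra k K] (C : Set (Pt K)),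
    NStable {1, -1} C → ∀ (m q : ℕ) (f : MvPolynomial (Fin (q + 1) → Ix (m + 1) (q + 1)) k),
    (∀ x ∈ C, Sat x (⟨m + 1, q + 1, f⟩ : Eqn k)) →
    (∃ x : Pt K, ¬ Sat x (⟨m + 1, q + 1, f⟩ : Eqn k)) →
    ∀ x ∈ C, ∀ (n p : ℕ) (e : Ix n p),
      (∀ d, TdLe k (del (x.x n p) e) d → TdLe k (Set.range (x.x n p)) (d + q)) ∨
      (∀ d, TdLe k (con (x.x n p) e) d → TdLe k (Set.range (x.x n p)) (d + m))

/-- DC (deletion and contraction are again points of `C`; extra hypotheses `G_MN`, `G_MONO`).
PROOF. `del (x.x (n + 1) p) (inl (last n))`: its members are the `x.x (n + 1) p (inc ∘ a') =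
x.x n p a'`. For `con` at `e = inl (last n)` let `σ` be the swap of `e` and `inr (last p)` and
`y ∈ C` from MONO with `t = 1`: `y.x (n + 1) p a' = y.x (n + 1) (p + 1) (cons (inr (last p))
(inc ∘ a')) = ω (cons e (σ ∘ inc ∘ a'))`. If `e ∈ range a`, `a j = e`, then
`ω a = ± ω (cons e (a ∘ succAbove j))`, and this is `0` or all the other members of `a` are `≠ e`,
hence of the form `σ (inc _)`. So `con ω e` is contained in the field generated by
`range (y.x (n + 1) p)`. -/
def G_DC : Prop :=
  ∀ (k : Type v) (K : Type u) [Field k] [Field K] [Algebra k K] (C : Set (Pt K)),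
    NStable {1, -1} C → ∀ x ∈ C, ∀ (n p : ℕ),
    (∀ d, TdLe k (Set.range (x.x n (p + 1))) d →
      TdLe k (del (x.x (n + 1) (p + 1)) (Sum.inl (Fin.last n))) d) ∧
    (∃ y ∈ C, ∀ d, TdLe k (Set.range (y.x (n + 1) p)) d →
      TdLe k (con (x.x (n + 1) (p + 1)) (Sum.inl (Fin.last n))) d)

/-- BASE (levels with `n = 0` or `p = 0`).
PROOF. `p = 0`: there is one coordinate. `n = 0`: every `a : Fin p → Ix 0 p` is `inr ∘ σ'` with
`σ'` a self-map of `Fin p`, and `ω a = ± ω inr` or `0` (decomposable, hence alternating). So the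
field is generated by one element, and `trdeg ≤ 1` (`Algebra.trdeg_le_cardinalMk`). -/
def G_BASE : Prop :=
  ∀ (k : Type v) (K : Type u) [Field k] [Field K] [Algebra k K] (n p : ℕ) (ω : Form K n p),
    IsDec ω → n = 0 ∨ p = 0 → TdLe k (Set.range ω) 1

/-- MAIN (extra hypotheses `G_MN`, `G_STEP`, `G_DC`, `G_BASE`).
PROOF. Induction on `n + p`, for all `x ∈ C`. `n = 0` or `p = 0`: BASE. Otherwise STEP for
`e = inl (last n)`, DC and the induction hypothesis. -/
def G_MAIN : Prop :=
  ∀ (k : Type v) (K : Type u) [Field k] [Field K] [Algebra k K] (C : Set (Pt K)),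
    NStable {1, -1} C → ∀ (m q : ℕ) (f : MvPolynomial (Fin (q + 1) → Ix (m + 1) (q + 1)) k),
    (∀ x ∈ C, Sat x (⟨m + 1, q + 1, f⟩ : Eqn k)) →
    (∃ x : Pt K, ¬ Sat x (⟨m + 1, q + 1, f⟩ : Eqn k)) →
    ∀ (n p : ℕ), ∀ x ∈ C, TdLe k (Set.range (x.x n p)) (q * n + m * p + 1)

/-- RAISE (raising the level of an equation).
PROOF. `f` at the level `(m, q)` becomes `rename (fun a => inc ∘ a) f` at the level `(m + 1, q)`
(`xi_eq`) and `rename (fun a => cons (inr (last q)) (inc ∘ a)) f` at the level `(m, q + 1)`
(`theta_eq`). -/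
def G_RAISE : Prop :=
  ∀ (k : Type v) (K : Type u) [Field k] [Field K] [Algebra k K] (e : Eqn k),
    ∃ f : MvPolynomial (Fin (e.p + 1) → Ix (e.n + 1) (e.p + 1)) k,
      ∀ x : Pt K, Sat x e ↔ Sat x (⟨e.n + 1, e.p + 1, f⟩ : Eqn k)

/-- GEN (the whole space has dimension `n * p + 1` at the level `(n, p)`).
PROOF. Let `c`, `t i j` (`i < p`, `j < n`) be algebraically independent over `k`, `t i j = 0` for
other `i, j`. Put `x.x m q a = c * det (fun i j => Φ (rev i) (a j))`, `Φ r (inr s) = 1` if `r = s`
and `0` otherwise, `Φ r (inl j) = t r j`. It is decomposable at every level; `xi_eq` is clear, and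
for `theta_eq` the first column of the determinant is `(1, 0, …, 0)`, and deleting the row and the
column `0` gives the determinant of the level below (`rev` of `Fin (q + 1)` at `i + 1` is `rev` of
`Fin q` at `i`). At the level `(n, p)` the coordinate `inr` is `± c` and the coordinate
`update inr i (inl j)` is `± c * t i j`, so the coordinates generate `k (c, t)` and the
transcendence degree is `n * p + 1`. -/
def G_GEN : Prop :=
  ∀ (k : Type v) (K : Type u) [Field k] [Field K] [Algebra k K] (n p : ℕ),
    ((n * p + 1 : ℕ) : Cardinal.{u}) ≤ Algebra.trdeg k K →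
    ∃ x : Pt K, Algebra.trdeg k (IntermediateField.adjoin k (Set.range (x.x n p))) =
      ((n * p + 1 : ℕ) : Cardinal.{u})

end Pool.Agent.Helper79.LG
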