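import Pool.Agent.Helper79.LG.CORE
import Pool.Agent.Helper79.LG.CR
import Pool.Agent.Helper99.IG.MONO
import Pool.Agent.Helper93.IG.ACT

/-!
# Project LG, packets STEP and MAIN
-/

universe u v

open scoped BigOperators

open Pool.Agent.Helper64.IG

namespace Pool.Agent.Helper79.LG

theorem step (hLOCAL : G_LOCAL.{u, v}) : G_STEP.{u, v} := by
  classical
  intro k K _ _ _ C hC m q f hf hx' x hx n p e
  set ω := x.x n p with hω
  have hdec : IsDec ω := x.dec n p
  by_cases hB : ∃ B : Fin p → Ix n p, e ∉ Set.range B ∧ ω B ≠ 0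
  · obtain ⟨B, heB, hB0⟩ := hB
    by_contra hcon
    push Not at hcon
    obtain ⟨⟨d1, h1, h1'⟩, ⟨d2, h2, h2'⟩⟩ := hcon
    have hI : ∃ I : Fin (q + 1) → Fin p, Function.Injective I ∧
        AlgebraicIndependent (IntermediateField.adjoin k (del ω e))
          (fun i => ω (Function.update B (I i) e)) := by
      by_contra hno
      push Not at hno
      exact h1' (dr k K (Set.range ω) (del ω e) (Fin p) (fun i => ω (Function.update B i e)) q d1
        ((ad k K n p ω hdec B e).1 heB hB0) hno h1)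
    obtain ⟨I, hI, hind⟩ := hI
    have hne : ω (Function.update B (I 0) e) ≠ 0 := hind.ne_zero 0
    have hg : ∃ g : Fin (m + 1) → Ix n p, Function.Injective g ∧
        AlgebraicIndependent (IntermediateField.adjoin k (con ω e))
          (fun j => ω (Function.update B (I 0) (g j))) := by
      by_contra hno
      push Not at hno
      exact h2' (dr k K (Set.range ω) (con ω e) (Ix n p) (fun g => ω (Function.update B (I 0) g))
        m d2 ((ad k K n p ω hdec B e).2 (I 0) hne) hno h2)
    obtain ⟨g, hg, hgind⟩ := hg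
    exact hLOCAL k K C hC m q f hf hx' x hx n p B e hB0 heB I hI hind g hg hgind
  · right
    intro d hd
    have hsub : Set.range ω ⊆ IntermediateField.adjoin k (con ω e) := by
      rintro _ ⟨a, rfl⟩
      by_cases ha : e ∈ Set.range a
      · exact IntermediateField.subset_adjoin _ _ ⟨a, ha, rfl⟩
      · have h0 : ω a = 0 := by
          by_contra h0
          exact hB ⟨a, ha, h0⟩
        rw [h0]
        exact zero_mem _
    have h1 : TdLe k (Set.range ω) d := mn k K _ _ d hsub hd
    unfold TdLe at h1 ⊢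
    refine h1.trans ?_
    exact_mod_cast Nat.le_add_right d m

theorem main' (hSTEP : G_STEP.{u, v}) (hDC : G_DC.{u, v}) (hBASE : G_BASE.{u, v}) :
    G_MAIN.{u, v} := by
  intro k K _ _ _ C hC m q f hf hx'
  have mono : ∀ (S : Set K) (d d' : ℕ), d ≤ d' → TdLe k S d → TdLe k S d' := by
    intro S d d' hdd h
    unfold TdLe at h ⊢
    refine h.trans ?_
    exact_mod_cast hdd
  have key : ∀ (N n p : ℕ), n + p = N → ∀ x ∈ C,
      TdLe k (Set.range (x.x n p)) (q * n + m * p + 1) := by
    intro N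
    induction N using Nat.strong_induction_on with
    | _ N ih =>
      intro n p hN x hx
      by_cases h0 : n = 0 ∨ p = 0
      · exact mono _ 1 _ (by omega) (hBASE k K n p (x.x n p) (x.dec n p) h0)
      · push Not at h0
        obtain ⟨n', rfl⟩ : ∃ n', n = n' + 1 := ⟨n - 1, by omega⟩
        obtain ⟨p', rfl⟩ : ∃ p', p = p' + 1 := ⟨p - 1, by omega⟩
        obtain ⟨hdel, y, hy, hcon⟩ := hDC k K C hC x hx n' p'
        rcases hSTEP k K C hC m q f hf hx' x hx (n' + 1) (p' + 1) (Sum.inl (Fin.last n')) with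
          h | h
        · have h1 := ih (n' + (p' + 1)) (by omega) n' (p' + 1) rfl x hx
          have h2 := h _ (hdel _ h1)
          exact mono _ _ _ (by rw [Nat.mul_add q n' 1]; omega) h2
        · have h1 := ih (n' + 1 + p') (by omega) (n' + 1) p' rfl y hy
          have h2 := h _ (hcon _ h1)
          exact mono _ _ _ (by rw [Nat.mul_add m p' 1]; omega) h2
  intro n p x hx
  exact key (n + p) n p rfl x hx

/-- The theorem, from the remaining packets. -/
theorem final (hLOCAL : G_LOCAL.{u, v}) (hDC : G_DC.{u, v}) (hBASE : G_BASE.{u, v})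
    (hRAISE : G_RAISE.{u, v}) (hGEN : G_GEN.{u, v}) (k : Type v) (K : Type u) [Field k] [Field K]
    [Algebra k K] :
    (∀ C : Set (Pt K), NStable {1, -1} C →
      (∀ (m q : ℕ) (f : MvPolynomial (Fin (q + 1) → Ix (m + 1) (q + 1)) k),
        (∀ x ∈ C, Sat x (⟨m + 1, q + 1, f⟩ : Eqn k)) →
        (∃ x : Pt K, ¬ Sat x (⟨m + 1, q + 1, f⟩ : Eqn k)) →
        ∀ (n p : ℕ), ∀ x ∈ C, Algebra.trdeg k (IntermediateField.adjoin k (Set.range (x.x n p))) ≤
          ((q * n + m * p + 1 : ℕ) : Cardinal)) ∧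
      (IsZClosed k C → C ≠ Set.univ → ∃ a b : ℕ, ∀ (n p : ℕ), ∀ x ∈ C,
        Algebra.trdeg k (IntermediateField.adjoin k (Set.range (x.x n p))) ≤
          ((a * n + b * p + 1 : ℕ) : Cardinal))) ∧
    ∀ n p : ℕ, ((n * p + 1 : ℕ) : Cardinal) ≤ Algebra.trdeg k K →
      ∃ x : Pt K, Algebra.trdeg k (IntermediateField.adjoin k (Set.range (x.x n p))) =
        ((n * p + 1 : ℕ) : Cardinal) := by
  have hM : G_MAIN.{u, v} := main' (step hLOCAL) hDC hBASE
  refine ⟨fun C hC => ⟨fun m q f h1 h2 => hM k K C hC m q f h1 h2, fun hcl hne => ?_⟩,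
    hGEN k K⟩
  obtain ⟨S, hS⟩ := hcl
  have h1 : ∃ x' : Pt K, x' ∉ C := by
    by_contra h
    push Not at h
    exact hne (Set.eq_univ_of_forall h)
  obtain ⟨x', hx'⟩ := h1
  have h2 : ∃ e ∈ S, ¬ Sat x' e := by
    by_contra h
    push Not at h
    apply hx'
    rw [hS]
    exact h
  obtain ⟨e, heS, hx'e⟩ := h2
  obtain ⟨f, hf⟩ := hRAISE k K e
  refine ⟨e.p, e.n, hM k K C hC e.n e.p f ?_ ⟨x', fun h => hx'e ((hf x').2 h)⟩⟩
  intro x hx
  rw [← hf x]
  rw [hS] at hx
  exact hx e heS

end Pool.Agent.Helper79.LG
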